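import Mathlib

namespace Pool.Agent.Results.MP_7aef23_nt.LinearGrowth

open Finset Filter Topology

/-- `x` is a sum of `k` elements of `A ∪ (-A)`, repetitions allowed (the empty sum is `0`). -/
def IsSumOf (A : Set ℕ) (k : ℕ) (x : ℤ) : Prop :=
  ∃ g : Fin k → ℤ, (∀ i, ∃ a ∈ A, g i = (a : ℤ) ∨ g i = -(a : ℤ)) ∧ ∑ i, g i = x

/-- The word length of `x` with respect to `A` is exactly `r`. -/
def HasLength (A : Set ℕ) (r : ℕ) (x : ℤ) : Prop :=
  IsSumOf A r x ∧ ∀ k, k < r → ¬ IsSumOf A k x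

/-- The family `𝒜(r, W)`: sets `A` of positive integers that generate `ℤ` and for which the set
of integers of word length exactly `r` is `W ∪ (-W)`. -/
def Fam (r : ℕ) (W : Finset ℕ) : Set (Set ℕ) :=
  {A | 0 ∉ A ∧ (∀ x : ℤ, ∃ k, IsSumOf A k x) ∧
    ∀ x : ℤ, HasLength A r x ↔ ∃ w ∈ W, x = (w : ℤ) ∨ x = -(w : ℤ)}

/-- `A(t) ≥ c t ^ θ` for some `c > 0` and all sufficiently large real `t`,
where `A(t)` is the number of elements of `A` that are at most `t`. -/
def Grows (A : Set ℕ) (θ : ℝ) : Prop :=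
  ∃ c : ℝ, 0 < c ∧ ∃ T : ℝ, ∀ t : ℝ, T ≤ t → c * t ^ θ ≤ ({a : ℕ | a ∈ A ∧ (a : ℝ) ≤ t}.ncard : ℝ)

/-- The exponent `θ(r, W)` (real supremum; the supremum of the empty set is `0`). -/
noncomputable def theta (r : ℕ) (W : Finset ℕ) : ℝ :=
  sSup {θ : ℝ | 0 < θ ∧ ∃ A ∈ Fam r W, Grows A θ}

lemma isSumOf_zero (A : Set ℕ) (x : ℤ) : IsSumOf A 0 x ↔ x = 0 := by
  unfold IsSumOf
  constructor
  · rintro ⟨g, _, h⟩
    simpa using h.symm
  · intro h
    exact ⟨fun i => i.elim0, fun i => i.elim0, by simp [h]⟩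

lemma isSumOf_succ (A : Set ℕ) (k : ℕ) (x : ℤ) :
    IsSumOf A (k + 1) x ↔ ∃ a ∈ A, IsSumOf A k (x - a) ∨ IsSumOf A k (x + a) := by
  constructor
  · rintro ⟨g, hg, hs⟩
    obtain ⟨a, ha, h⟩ := hg 0
    rw [Fin.sum_univ_succ] at hs
    refine ⟨a, ha, ?_⟩
    rcases h with h | h
    · left
      exact ⟨fun i => g i.succ, fun i => hg i.succ, by rw [← hs, h]; ring⟩
    · right
      exact ⟨fun i => g i.succ, fun i => hg i.succ, by rw [← hs, h]; ring⟩
  · rintro ⟨a, ha, h⟩
    rcases h with ⟨g, hg, hs⟩ | ⟨g, hg, hs⟩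
    · refine ⟨Fin.cons (a : ℤ) g, ?_, ?_⟩
      · intro i
        refine Fin.cases ?_ ?_ i
        · exact ⟨a, ha, Or.inl rfl⟩
        · intro j
          simpa using hg j
      · rw [Fin.sum_univ_succ]
        simp only [Fin.cons_zero, Fin.cons_succ]
        rw [hs]; ring
    · refine ⟨Fin.cons (-(a : ℤ)) g, ?_, ?_⟩
      · intro i
        refine Fin.cases ?_ ?_ i
        · exact ⟨a, ha, Or.inr rfl⟩
        · intro j
          simpa using hg j
      · rw [Fin.sum_univ_succ]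
        simp only [Fin.cons_zero, Fin.cons_succ]
        rw [hs]; ring

/-- The statement proved by induction on `r`. -/
def Good (r : ℕ) : Prop :=
  ∀ W : Set ℤ, W.Finite → (0 : ℤ) ∉ W → (∀ x ∈ W, -x ∈ W) → ∀ Y : ℤ,
    ∃ A : Set ℕ, 0 ∉ A ∧ (∃ m k0 : ℕ, 0 < m ∧ ∀ k, k0 ≤ k → m * k ∈ A) ∧
      (∀ x, x ∉ W → ∃ k, k < r ∧ IsSumOf A k x) ∧
      (∀ x ∈ W, IsSumOf A r x ∧ ∀ k, k < r → ¬ IsSumOf A k x) ∧
      (∀ x, x ≠ 0 → |x| ≤ Y → ∀ k, k + 1 < r → ¬ IsSumOf A k x)

lemma exists_bound {W : Set ℤ} (hW : W.Finite) : ∃ B : ℤ, 0 ≤ B ∧ ∀ x ∈ W, |x| ≤ B := by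
  refine ⟨∑ x ∈ hW.toFinset, |x|, Finset.sum_nonneg (fun i _ => abs_nonneg i), ?_⟩
  intro x hx
  exact Finset.single_le_sum (f := fun x : ℤ => |x|) (fun i _ => abs_nonneg i)
    (hW.mem_toFinset.mpr hx)

lemma good_two : Good 2 := by
  intro W hW h0 hsym Y
  obtain ⟨B, hB0, hB⟩ := exists_bound hW
  refine ⟨{a : ℕ | 0 < a ∧ (a : ℤ) ∉ W}, ?_, ?_, ?_, ?_, ?_⟩
  · rintro ⟨h, _⟩
    exact lt_irrefl _ h
  · refine ⟨1, B.toNat + 1, one_pos, ?_⟩
    intro k hk
    refine ⟨by omega, ?_⟩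
    intro h
    have := hB _ h
    rw [abs_of_nonneg (by positivity)] at this
    omega
  · intro x hx
    by_cases hx0 : x = 0
    · exact ⟨0, by norm_num, (isSumOf_zero _ _).mpr hx0⟩
    · refine ⟨1, by norm_num, (isSumOf_succ _ _ _).mpr ?_⟩
      rcases lt_or_gt_of_ne hx0 with h | h
      · refine ⟨(-x).toNat, ⟨by omega, ?_⟩, Or.inr ?_⟩
        · intro h2
          rw [Int.toNat_of_nonneg (by omega)] at h2
          have := hsym _ h2
          rw [neg_neg] at this
          exact hx this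
        · rw [isSumOf_zero, Int.toNat_of_nonneg (by omega)]
          ring
      · refine ⟨x.toNat, ⟨by omega, ?_⟩, Or.inl ?_⟩
        · intro h2
          rw [Int.toNat_of_nonneg (by omega)] at h2
          exact hx h2
        · rw [isSumOf_zero, Int.toNat_of_nonneg (by omega)]
          ring
  · intro x hx
    have hx0 : x ≠ 0 := fun h => h0 (h ▸ hx)
    have hxB := hB x hx
    rw [abs_le] at hxB
    constructor
    · have h1 : ∀ z : ℤ, B < z → z.toNat ∈ {a : ℕ | 0 < a ∧ (a : ℤ) ∉ W} := by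
        intro z hz
        refine ⟨by omega, ?_⟩
        intro h2
        have h3 := hB _ h2
        rw [Int.toNat_of_nonneg (by omega), abs_of_nonneg (by omega)] at h3
        omega
      refine (isSumOf_succ _ _ _).mpr ⟨(x + 2 * B + 1).toNat, h1 _ (by omega), Or.inl ?_⟩
      refine (isSumOf_succ _ _ _).mpr ⟨(2 * B + 1).toNat, h1 _ (by omega), Or.inr ?_⟩
      rw [isSumOf_zero, Int.toNat_of_nonneg (by omega), Int.toNat_of_nonneg (by omega)]
      ring
    · intro k hk hsum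
      interval_cases k
      · exact hx0 ((isSumOf_zero _ _).mp hsum)
      · obtain ⟨a, ⟨ha0, haW⟩, h | h⟩ := (isSumOf_succ _ _ _).mp hsum
        · rw [isSumOf_zero] at h
          apply haW
          have : (a : ℤ) = x := by omega
          rw [this]; exact hx
        · rw [isSumOf_zero] at h
          apply haW
          have : (a : ℤ) = -x := by omega
          rw [this]; exact hsym _ hx
  · intro x hx0 _ k hk hsum
    have : k = 0 := by omega
    subst this
    exact hx0 ((isSumOf_zero _ _).mp hsum)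

/-- existence of a rapidly increasing sequence of lifts -/
lemma exists_lifts (n : ℤ) (hn : 0 < n) (ρ : ℕ → ℤ) (C C0 : ℤ) (hC : 0 ≤ C) (hC0 : 0 ≤ C0)
    (E : ℕ) : ∃ u : ℕ → ℤ, ∀ e, e < E → (∃ s : ℤ, u e = ρ e + n * s) ∧ 0 < u e ∧
      C0 + C * ∑ e' ∈ Finset.range e, u e' < u e := by
  induction E with
  | zero => exact ⟨fun _ => 0, fun e he => absurd he (Nat.not_lt_zero e)⟩
  | succ E ih =>
    obtain ⟨u, hu⟩ := ih
    set S : ℤ := C0 + C * ∑ e' ∈ Finset.range E, u e' with hS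
    have hsum0 : 0 ≤ ∑ e' ∈ Finset.range E, u e' := by
      apply Finset.sum_nonneg
      intro i hi
      exact (hu i (Finset.mem_range.mp hi)).2.1.le
    have hS0 : 0 ≤ S := by positivity
    refine ⟨Function.update u E (ρ E + n * (S + |ρ E| + 1)), ?_⟩
    intro e he
    rcases Nat.lt_or_ge e E with h | h
    · have hsum : ∑ e' ∈ Finset.range e, Function.update u E (ρ E + n * (S + |ρ E| + 1)) e' =
          ∑ e' ∈ Finset.range e, u e' := by
        apply Finset.sum_congr rfl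
        intro i hi
        have := Finset.mem_range.mp hi
        rw [Function.update_of_ne (by omega)]
      rw [hsum, Function.update_of_ne (by omega)]
      exact hu e h
    · have he' : e = E := by omega
      subst he'
      have hsum : ∑ e' ∈ Finset.range e, Function.update u e (ρ e + n * (S + |ρ e| + 1)) e' =
          ∑ e' ∈ Finset.range e, u e' := by
        apply Finset.sum_congr rfl
        intro i hi
        have := Finset.mem_range.mp hi
        rw [Function.update_of_ne (by omega)]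
      rw [hsum, Function.update_self, ← hS]
      have h1 : -|ρ e| ≤ ρ e := neg_abs_le _
      have h2 : 0 ≤ |ρ e| := abs_nonneg _
      have h3 : S + |ρ e| + 1 ≤ n * (S + |ρ e| + 1) := by nlinarith
      refine ⟨⟨_, rfl⟩, by omega, by omega⟩

/-- a rapidly increasing sequence satisfies no nontrivial relation with small coefficients -/
lemma generic {u : ℕ → ℤ} {C C0 : ℤ} {E : ℕ}
    (hu : ∀ e, e < E → 0 < u e ∧ C0 + C * ∑ e' ∈ Finset.range e, u e' < u e)
    (c : ℕ → ℤ) (hc : ∀ e, e < E → |c e| ≤ C) (c0 : ℤ) (hc0 : |c0| ≤ C0)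
    (h : ∑ e ∈ Finset.range E, c e * u e = c0) : ∀ e, e < E → c e = 0 := by
  induction E with
  | zero => intro e he; exact absurd he (Nat.not_lt_zero e)
  | succ E ih =>
    have hE : c E = 0 := by
      by_contra hne
      have h1 := hu E (Nat.lt_succ_self E)
      rw [Finset.sum_range_succ] at h
      have h2 : |∑ e ∈ Finset.range E, c e * u e| ≤ C * ∑ e' ∈ Finset.range E, u e' := by
        refine le_trans (Finset.abs_sum_le_sum_abs _ _) ?_
        rw [Finset.mul_sum]
        apply Finset.sum_le_sum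
        intro i hi
        have hi' := Finset.mem_range.mp hi
        have h3 := hu i (by omega)
        rw [abs_mul, abs_of_pos h3.1]
        exact mul_le_mul_of_nonneg_right (hc i (by omega)) h3.1.le
      have h3 : u E ≤ |c E * u E| := by
        rw [abs_mul, abs_of_pos h1.1]
        have : 1 ≤ |c E| := Int.one_le_abs hne
        nlinarith [h1.1]
      have h4 : c E * u E = c0 - ∑ e ∈ Finset.range E, c e * u e := by linarith
      have h5 : |c E * u E| ≤ |c0| + |∑ e ∈ Finset.range E, c e * u e| := by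
        rw [h4]; exact abs_sub _ _
      linarith [h1.2]
    intro e he
    rcases Nat.lt_or_ge e E with h' | h'
    · apply ih (fun e he => hu e (by omega)) (fun e he => hc e (by omega)) _ e h'
      rw [Finset.sum_range_succ, hE, zero_mul, add_zero] at h
      exact h
    · have : e = E := by omega
      rw [this]; exact hE

lemma succ_sign (A : Set ℕ) (k : ℕ) (x : ℤ) :
    IsSumOf A (k + 1) x ↔ ∃ a ∈ A, ∃ σ : ℤ, (σ = 1 ∨ σ = -1) ∧ IsSumOf A k (x - σ * a) := by
  rw [isSumOf_succ]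
  constructor
  · rintro ⟨a, ha, h | h⟩
    · exact ⟨a, ha, 1, Or.inl rfl, by simpa using h⟩
    · refine ⟨a, ha, -1, Or.inr rfl, ?_⟩
      have : x - -1 * (a : ℤ) = x + a := by ring
      rw [this]; exact h
  · rintro ⟨a, ha, σ, rfl | rfl, h⟩
    · exact ⟨a, ha, Or.inl (by simpa using h)⟩
    · refine ⟨a, ha, Or.inr ?_⟩
      have : x - -1 * (a : ℤ) = x + a := by ring
      rw [← this]; exact h

/-- the next set: the lifts together with the multiples `n * a`, `a ∈ A` -/
def nxt (A : Set ℕ) (n : ℕ) (u : ℕ → ℤ) (E : ℕ) : Set ℕ :=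
  {a : ℕ | (∃ e, e < E ∧ (a : ℤ) = u e) ∨ ∃ b ∈ A, a = n * b}

lemma sum_update (u c : ℕ → ℤ) (E e : ℕ) (he : e < E) (σ : ℤ) :
    ∑ i ∈ Finset.range E, (Function.update c e (c e + σ)) i * u i =
      ∑ i ∈ Finset.range E, c i * u i + σ * u e := by
  have h1 := Finset.add_sum_erase (Finset.range E)
    (fun i => (Function.update c e (c e + σ)) i * u i) (Finset.mem_range.mpr he)
  have h2 := Finset.add_sum_erase (Finset.range E)
    (fun i => c i * u i) (Finset.mem_range.mpr he)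
  have h3 : ∑ x ∈ (Finset.range E).erase e, (fun i => (Function.update c e (c e + σ)) i * u i) x =
      ∑ x ∈ (Finset.range E).erase e, (fun i => c i * u i) x := by
    apply Finset.sum_congr rfl
    intro i hi
    have := Finset.ne_of_mem_erase hi
    simp only
    rw [Function.update_of_ne this]
  simp only [Function.update_self] at h1
  rw [← h1, ← h2]
  simp only at h3
  rw [h3]
  ring

lemma sum_abs_update (c : ℕ → ℤ) (E e : ℕ) (he : e < E) (σ : ℤ) (hσ : σ = 1 ∨ σ = -1) :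
    ∑ i ∈ Finset.range E, |(Function.update c e (c e + σ)) i| ≤
      ∑ i ∈ Finset.range E, |c i| + 1 := by
  have h1 := Finset.add_sum_erase (Finset.range E)
    (fun i => |(Function.update c e (c e + σ)) i|) (Finset.mem_range.mpr he)
  have h2 := Finset.add_sum_erase (Finset.range E)
    (fun i => |c i|) (Finset.mem_range.mpr he)
  have h3 : ∑ x ∈ (Finset.range E).erase e, (fun i => |(Function.update c e (c e + σ)) i|) x =
      ∑ x ∈ (Finset.range E).erase e, (fun i => |c i|) x := by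
    apply Finset.sum_congr rfl
    intro i hi
    have := Finset.ne_of_mem_erase hi
    simp only
    rw [Function.update_of_ne this]
  simp only [Function.update_self] at h1
  rw [← h1, ← h2]
  simp only at h3
  rw [h3]
  have h4 : |c e + σ| ≤ |c e| + 1 := by
    refine le_trans (abs_add_le _ _) ?_
    rcases hσ with h | h <;> subst h <;> simp
  linarith

lemma dec {A : Set ℕ} {n : ℕ} {u : ℕ → ℤ} {E : ℕ} (k : ℕ) : ∀ x : ℤ,
    IsSumOf (nxt A n u E) k x → ∃ t, t ≤ k ∧ ∃ c : ℕ → ℤ,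
      ∑ e ∈ Finset.range E, |c e| ≤ t ∧ ∃ y, IsSumOf A (k - t) y ∧
        x = ∑ e ∈ Finset.range E, c e * u e + n * y := by
  induction k with
  | zero =>
    intro x h
    rw [isSumOf_zero] at h
    exact ⟨0, le_rfl, fun _ => 0, by simp, 0, by rw [isSumOf_zero], by simp [h]⟩
  | succ k ih =>
    intro x h
    rw [succ_sign] at h
    obtain ⟨a, ha, σ, hσ, h⟩ := h
    obtain ⟨t, htk, c, hc, y, hy, hx⟩ := ih _ h
    rcases ha with ⟨e, he, hae⟩ | ⟨b, hb, rfl⟩
    · refine ⟨t + 1, by omega, Function.update c e (c e + σ), ?_, y, ?_, ?_⟩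
      · have := sum_abs_update c E e he σ hσ
        push_cast
        linarith
      · have : k + 1 - (t + 1) = k - t := by omega
        rw [this]; exact hy
      · rw [sum_update u c E e he σ]
        rw [hae] at hx
        linarith
    · refine ⟨t, by omega, c, hc, y + σ * b, ?_, ?_⟩
      · have : k + 1 - t = (k - t) + 1 := by omega
        rw [this, succ_sign]
        refine ⟨b, hb, σ, hσ, ?_⟩
        have : y + σ * b - σ * b = y := by ring
        rw [this]; exact hy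
      · push_cast at hx
        linarith

lemma comp1 {A : Set ℕ} {n : ℕ} {u : ℕ → ℤ} {E : ℕ} (k : ℕ) : ∀ y : ℤ,
    IsSumOf A k y → IsSumOf (nxt A n u E) k (n * y) := by
  induction k with
  | zero =>
    intro y h
    rw [isSumOf_zero] at h ⊢
    simp [h]
  | succ k ih =>
    intro y h
    rw [succ_sign] at h ⊢
    obtain ⟨a, ha, σ, hσ, h⟩ := h
    refine ⟨n * a, Or.inr ⟨a, ha, rfl⟩, σ, hσ, ?_⟩
    have := ih _ h
    have e : (n : ℤ) * y - σ * ((n * a : ℕ) : ℤ) = n * (y - σ * a) := by push_cast; ring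
    rw [e]; exact this

lemma comp2 {A : Set ℕ} {n : ℕ} {u : ℕ → ℤ} {E : ℕ} (hu : ∀ e, e < E → 0 < u e) (k : ℕ) (y : ℤ)
    (h : IsSumOf A k y) (e : ℕ) (he : e < E) (σ : ℤ) (hσ : σ = 1 ∨ σ = -1) :
    IsSumOf (nxt A n u E) (k + 1) (n * y + σ * u e) := by
  rw [succ_sign]
  refine ⟨(u e).toNat, Or.inl ⟨e, he, Int.toNat_of_nonneg (hu e he).le⟩, σ, hσ, ?_⟩
  rw [Int.toNat_of_nonneg (hu e he).le]
  have : (n : ℤ) * y + σ * u e - σ * u e = n * y := by ring
  rw [this]
  exact comp1 k y h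

/-- indicator function of `e` -/
def ind (e : ℕ) : ℕ → ℤ := fun i => if i = e then 1 else 0

lemma ind_self (e : ℕ) : ind e e = 1 := by simp [ind]

lemma ind_ne {e i : ℕ} (h : i ≠ e) : ind e i = 0 := by simp [ind, h]

lemma ind_abs (e i : ℕ) : |ind e i| ≤ 1 := by
  unfold ind; split_ifs <;> simp

lemma sum_ind (u : ℕ → ℤ) (E e : ℕ) (he : e < E) :
    ∑ i ∈ Finset.range E, ind e i * u i = u e := by
  rw [Finset.sum_eq_single e]
  · rw [ind_self, one_mul]
  · intro b _ hb
    rw [ind_ne hb, zero_mul]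
  · intro h
    exact absurd (Finset.mem_range.mpr he) h

/-- the combinatorial core: three equal differences of lifts vanish -/
lemma core (s : ℤ) (hs : s = 1 ∨ s = -1) (e1 e2 e3 : ℕ) (h12 : e1 ≠ e2) (h13 : e1 ≠ e3)
    (h23 : e2 ≠ e3) (s1 s2 s3 : ℤ) (hs1 : s1 = 1 ∨ s1 = -1) (hs2 : s2 = 1 ∨ s2 = -1)
    (f1 f2 f3 E : ℕ) (he1 : e1 < E) (he2 : e2 < E) (he3 : e3 < E)
    (H12 : ∀ i, i < E → s * ind e1 i - s1 * ind f1 i = s * ind e2 i - s2 * ind f2 i)
    (H13 : ∀ i, i < E → s * ind e1 i - s1 * ind f1 i = s * ind e3 i - s3 * ind f3 i) :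
    f1 = e1 ∧ s1 = s := by
  have eqv : ∀ v w : ℕ, ind v w = 1 → v = w := by
    intro v w h
    unfold ind at h
    split_ifs at h with h1
    · exact h1.symm
    · exact absurd h (by norm_num)
  have val : ∀ v w : ℕ, ind v w = 1 ∨ ind v w = 0 := by
    intro v w
    unfold ind
    split_ifs <;> simp
  by_contra hcon
  have a1 := H12 e1 he1
  have a2 := H13 e1 he1
  have a3 := H12 e2 he2
  have a6 := H13 e3 he3
  rw [ind_self, ind_ne h12] at a1
  rw [ind_self, ind_ne h13] at a2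
  rw [ind_self, ind_ne h12.symm] at a3
  rw [ind_self, ind_ne h13.symm] at a6
  -- f1 ≠ e1
  have hf1 : ind f1 e1 = 0 := by
    rcases val f1 e1 with h | h
    · exfalso
      have h1 := eqv _ _ h
      have h2 : s1 ≠ s := fun h2 => hcon ⟨h1, h2⟩
      rw [h] at a1
      rcases val f2 e1 with h3 | h3 <;> rw [h3] at a1 <;>
        rcases hs with rfl | rfl <;> rcases hs1 with rfl | rfl <;> rcases hs2 with rfl | rfl <;>
        omega
    · exact h
  rw [hf1] at a1 a2
  have hf2 : f2 = e1 := by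
    rcases val f2 e1 with h | h
    · exact eqv _ _ h
    · rw [h] at a1
      rcases hs with rfl | rfl <;> omega
  have hf3 : f3 = e1 := by
    rcases val f3 e1 with h | h
    · exact eqv _ _ h
    · rw [h] at a2
      rcases hs with rfl | rfl <;> omega
  subst hf2
  rw [hf3] at a6
  rw [ind_ne h12.symm] at a3
  rw [ind_ne h13.symm] at a6
  have h2 : f1 = e2 := by
    rcases val f1 e2 with h | h
    · exact eqv _ _ h
    · rw [h] at a3
      rcases hs with rfl | rfl <;> omega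
  have h3 : f1 = e3 := by
    rcases val f1 e3 with h | h
    · exact eqv _ _ h
    · rw [h] at a6
      rcases hs with rfl | rfl <;> omega
  exact h23 (h2.symm.trans h3)

lemma single {u c : ℕ → ℤ} {E : ℕ} (h : ∑ e ∈ Finset.range E, |c e| = 1) :
    ∃ e, e < E ∧ ∃ σ : ℤ, (σ = 1 ∨ σ = -1) ∧ ∑ i ∈ Finset.range E, c i * u i = σ * u e := by
  have hex : ∃ e ∈ Finset.range E, c e ≠ 0 := by
    by_contra hcon
    push Not at hcon
    rw [Finset.sum_eq_zero (fun e he => by rw [hcon e he, abs_zero])] at h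
    exact absurd h (by norm_num)
  obtain ⟨e, he, hce⟩ := hex
  have h1 := Finset.add_sum_erase (Finset.range E) (fun i => |c i|) he
  have h2 : 1 ≤ |c e| := Int.one_le_abs hce
  have h3 : 0 ≤ ∑ x ∈ (Finset.range E).erase e, |c x| :=
    Finset.sum_nonneg (fun i _ => abs_nonneg _)
  have h4 : |c e| = 1 := by omega
  have h5 : ∑ x ∈ (Finset.range E).erase e, |c x| = 0 := by omega
  have h6 := (Finset.sum_eq_zero_iff_of_nonneg (fun i _ => abs_nonneg (c i))).mp h5
  refine ⟨e, Finset.mem_range.mp he, c e, ?_, ?_⟩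
  · rcases abs_eq (by norm_num : (0:ℤ) ≤ 1) |>.mp h4 with h | h
    · exact Or.inl h
    · exact Or.inr h
  · rw [Finset.sum_eq_single_of_mem e he]
    intro b hb hbe
    have := h6 b (Finset.mem_erase.mpr ⟨hbe, hb⟩)
    rw [abs_eq_zero.mp this, zero_mul]

lemma residue (n h : ℕ) (hn : n = 2 * h + 1) (x : ℤ) :
    (∃ y : ℤ, x = n * y) ∨ ∃ σ : ℤ, (σ = 1 ∨ σ = -1) ∧ ∃ a : ℕ, a < h ∧ ∃ y : ℤ,
      x = σ * ((a : ℤ) + 1) + n * y := by
  have hn0 : (0 : ℤ) < n := by omega
  have h1 := Int.emod_add_mul_ediv x n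
  have h2 := Int.emod_nonneg x hn0.ne'
  have h3 := Int.emod_lt_of_pos x hn0
  by_cases h4 : x % n = 0
  · left
    exact ⟨x / n, by rw [h4] at h1; omega⟩
  · right
    by_cases h5 : x % n ≤ h
    · refine ⟨1, Or.inl rfl, (x % n - 1).toNat, by omega, x / n, ?_⟩
      rw [Int.toNat_of_nonneg (by omega)]
      linarith
    · refine ⟨-1, Or.inr rfl, (n - x % n - 1).toNat, by omega, x / n + 1, ?_⟩
      rw [Int.toNat_of_nonneg (by omega)]
      linarith

lemma step (r : ℕ) (hr : 2 ≤ r) (hG : Good r) : Good (r + 1) := by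
  intro W hW h0 hsym Y
  obtain ⟨B, hB0, hB⟩ := exists_bound hW
  set Y1 : ℤ := max Y B with hY1
  have hY1B : B ≤ Y1 := le_max_right _ _
  have hY1Y : Y ≤ Y1 := le_max_left _ _
  have hY10 : 0 ≤ Y1 := le_trans hB0 hY1B
  set h : ℕ := Y1.toNat + 1 with hh
  set n : ℕ := 2 * h + 1 with hn
  set E : ℕ := 3 * h with hE
  have hn0 : (0 : ℤ) < n := by omega
  obtain ⟨u, hu⟩ := exists_lifts n hn0 (fun e => ((e / 3 : ℕ) : ℤ) + 1) (r + 5) (2 * Y1)
    (by positivity) (by positivity) E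
  have hupos : ∀ e, e < E → 0 < u e := fun e he => (hu e he).2.1
  have hgen := fun (c : ℕ → ℤ) (hc : ∀ e, e < E → |c e| ≤ (r : ℤ) + 5) (c0 : ℤ)
      (hc0 : |c0| ≤ 2 * Y1) (hsum : ∑ e ∈ Finset.range E, c e * u e = c0) =>
    generic (fun e he => (hu e he).2) c hc c0 hc0 hsum
  have hU0 : 0 ≤ ∑ e ∈ Finset.range E, u e :=
    Finset.sum_nonneg (fun i hi => (hupos i (Finset.mem_range.mp hi)).le)
  set U : ℤ := ∑ e ∈ Finset.range E, u e with hU
  have huU : ∀ e, e < E → u e ≤ U := fun e he =>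
    Finset.single_le_sum (f := u) (fun i hi => (hupos i (Finset.mem_range.mp hi)).le)
      (Finset.mem_range.mpr he)
  let W' : Set ℤ := {y | ∃ w ∈ W, ∃ e, e < E ∧ ∃ σ : ℤ, (σ = 1 ∨ σ = -1) ∧ n * y = w - σ * u e}
  have habs : ∀ y z : ℤ, (n : ℤ) * y = z → |y| ≤ |z| := by
    intro y z hyz
    rw [← hyz, abs_mul, abs_of_pos hn0]
    have := abs_nonneg y
    nlinarith
  have hWfin : W'.Finite := by
    apply Set.Finite.subset (Set.finite_Icc (-(B + U)) (B + U))
    rintro y ⟨w, hw, e, he, σ, hσ, hy⟩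
    have h1 := habs _ _ hy
    have h2 : |w - σ * u e| ≤ B + U := by
      refine le_trans (abs_sub _ _) ?_
      have h3 := hB w hw
      have h4 : |σ * u e| = u e := by
        rcases hσ with rfl | rfl
        · rw [one_mul, abs_of_pos (hupos e he)]
        · rw [neg_mul, one_mul, abs_neg, abs_of_pos (hupos e he)]
      rw [h4]
      linarith [huU e he]
    exact Set.mem_Icc.mpr (abs_le.mp (le_trans h1 h2))
  have hW0 : (0 : ℤ) ∉ W' := by
    rintro ⟨w, hw, e, he, σ, hσ, hy⟩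
    have h1 := hgen (fun i => σ * ind e i) (by
      intro i _
      rw [abs_mul]
      have h2 := ind_abs e i
      have h3 : |σ| = 1 := by rcases hσ with rfl | rfl <;> simp
      rw [h3, one_mul]
      omega) w (by have := hB w hw; omega) (by
      simp_rw [mul_assoc]
      rw [← Finset.mul_sum, sum_ind u E e he]
      omega) e he
    simp only [ind_self, mul_one] at h1
    rcases hσ with rfl | rfl <;> omega
  have hWsym : ∀ x ∈ W', -x ∈ W' := by
    rintro y ⟨w, hw, e, he, σ, hσ, hy⟩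
    refine ⟨-w, hsym w hw, e, he, -σ, ?_, ?_⟩
    · rcases hσ with rfl | rfl
      · exact Or.inr rfl
      · exact Or.inl (by norm_num)
    · linear_combination -hy
  obtain ⟨A, hA0, ⟨m, k0, hm, hmk⟩, hAsmall, hAW, hAV⟩ :=
    hG W' hWfin hW0 hWsym (Y1 + (r + 1) * U)
  -- the analysis of a representation of a small nonzero integer
  have hana : ∀ x : ℤ, x ≠ 0 → |x| ≤ Y1 → ∀ k, k ≤ r → IsSumOf (nxt A n u E) k x →
      ∃ t, 1 ≤ t ∧ t ≤ k ∧ ∃ c : ℕ → ℤ, ∑ e ∈ Finset.range E, |c e| ≤ t ∧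
        1 ≤ ∑ e ∈ Finset.range E, |c e| ∧ ∃ y : ℤ, y ≠ 0 ∧ |y| ≤ Y1 + (r + 1) * U ∧
        IsSumOf A (k - t) y ∧ x = ∑ e ∈ Finset.range E, c e * u e + n * y := by
    intro x hx0 hxY k hk hsum
    obtain ⟨t, htk, c, hc, y, hy, hx⟩ := dec k x hsum
    have hcle : ∀ e, e < E → |c e| ≤ t := by
      intro e he
      refine le_trans ?_ hc
      exact Finset.single_le_sum (f := fun i => |c i|) (fun i _ => abs_nonneg _)
        (Finset.mem_range.mpr he)
    have hne : ¬ (∀ e, e < E → c e = 0) := by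
      intro hall
      rw [Finset.sum_eq_zero (fun e he => by
        rw [hall e (Finset.mem_range.mp he), zero_mul]), zero_add] at hx
      have hy0 : y ≠ 0 := by
        rintro rfl
        exact hx0 (by simpa using hx)
      have h1 : (n : ℤ) ≤ |x| := by
        rw [hx, abs_mul, abs_of_pos hn0]
        have := Int.one_le_abs hy0
        nlinarith
      omega
    have hpos : 1 ≤ ∑ e ∈ Finset.range E, |c e| := by
      by_contra hlt
      have h1 : ∑ e ∈ Finset.range E, |c e| = 0 := by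
        have : 0 ≤ ∑ e ∈ Finset.range E, |c e| := Finset.sum_nonneg (fun i _ => abs_nonneg _)
        omega
      have h2 := (Finset.sum_eq_zero_iff_of_nonneg (fun i _ => abs_nonneg (c i))).mp h1
      exact hne (fun e he => abs_eq_zero.mp (h2 e (Finset.mem_range.mpr he)))
    refine ⟨t, by omega, htk, c, hc, hpos, y, ?_, ?_, hy, hx⟩
    · rintro rfl
      apply hne
      apply hgen c (fun e he => le_trans (hcle e he) (by omega)) x (by omega)
      rw [hx]; ring
    · have h1 : (n : ℤ) * y = x - ∑ e ∈ Finset.range E, c e * u e := by rw [hx]; ring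
      refine le_trans (habs _ _ h1) (le_trans (abs_sub _ _) ?_)
      have h2 : |∑ e ∈ Finset.range E, c e * u e| ≤ (r + 1) * U := by
        refine le_trans (Finset.abs_sum_le_sum_abs _ _) ?_
        rw [hU, Finset.mul_sum]
        apply Finset.sum_le_sum
        intro i hi
        have hi' := Finset.mem_range.mp hi
        rw [abs_mul, abs_of_pos (hupos i hi')]
        exact mul_le_mul_of_nonneg_right (le_trans (hcle i hi') (by omega)) (hupos i hi').le
      linarith
  refine ⟨nxt A n u E, ?_, ?_, ?_, ?_, ?_⟩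
  · rintro (⟨e, he, h1⟩ | ⟨b, hb, h1⟩)
    · have := hupos e he
      push_cast at h1
      omega
    · have hb0 : b = 0 := by
        rcases Nat.mul_eq_zero.mp h1.symm with h2 | h2
        · omega
        · exact h2
      exact hA0 (hb0 ▸ hb)
  · refine ⟨n * m, k0, Nat.mul_pos (by omega) hm, ?_⟩
    intro k hk
    exact Or.inr ⟨m * k, hmk k hk, by ring⟩
  · intro x hx
    rcases residue n h hn x with ⟨y, rfl⟩ | ⟨σ, hσ, a, ha, y, hy⟩
    · by_cases hyW : y ∈ W'
      · exact ⟨r, by omega, comp1 r y (hAW y hyW).1⟩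
      · obtain ⟨k, hk, hsum⟩ := hAsmall y hyW
        exact ⟨k, by omega, comp1 k y hsum⟩
    · -- three lifts
      have hlift : ∀ j, j < 3 → ∃ z : ℤ, x = n * z + σ * u (3 * a + j) := by
        intro j hj
        obtain ⟨s, hs⟩ := (hu (3 * a + j) (by omega)).1
        have : (3 * a + j) / 3 = a := by omega
        simp only [this] at hs
        refine ⟨y - σ * s, ?_⟩
        rw [hs, hy]; ring
      have hone : ∀ j, j < 3 → (∃ k, k < r + 1 ∧ IsSumOf (nxt A n u E) k x) ∨
          ∃ w ∈ W, ∃ f, f < E ∧ ∃ s1 : ℤ, (s1 = 1 ∨ s1 = -1) ∧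
            x = w - s1 * u f + σ * u (3 * a + j) := by
        intro j hj
        obtain ⟨z, hz⟩ := hlift j hj
        by_cases hzW : z ∈ W'
        · right
          obtain ⟨w, hw, f, hf, s1, hs1, h1⟩ := hzW
          exact ⟨w, hw, f, hf, s1, hs1, by rw [hz, h1]⟩
        · left
          obtain ⟨k, hk, hsum⟩ := hAsmall z hzW
          refine ⟨k + 1, by omega, ?_⟩
          rw [hz]
          exact comp2 hupos k z hsum _ (by omega) σ hσ
      rcases hone 0 (by norm_num) with hd | ⟨w1, hw1, f1, hf1, s1, hs1, e1⟩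
      · exact hd
      rcases hone 1 (by norm_num) with hd | ⟨w2, hw2, f2, hf2, s2, hs2, e2⟩
      · exact hd
      rcases hone 2 (by norm_num) with hd | ⟨w3, hw3, f3, hf3, s3, hs3, e3⟩
      · exact hd
      exfalso
      have hrel : ∀ (i1 i2 g1 g2 : ℕ) (t1 t2 v1 v2 : ℤ), i1 < E → i2 < E → g1 < E → g2 < E →
          (t1 = 1 ∨ t1 = -1) → (t2 = 1 ∨ t2 = -1) → v1 ∈ W → v2 ∈ W →
          x = v1 - t1 * u g1 + σ * u i1 → x = v2 - t2 * u g2 + σ * u i2 →
          ∀ i, i < E → σ * ind i1 i - t1 * ind g1 i = σ * ind i2 i - t2 * ind g2 i := by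
        intro i1 i2 g1 g2 t1 t2 v1 v2 hi1 hi2 hg1 hg2 ht1 ht2 hv1 hv2 hx1 hx2 i hi
        have h1 := hgen (fun i => (σ * ind i1 i - t1 * ind g1 i) - (σ * ind i2 i - t2 * ind g2 i))
          (by
            intro i _
            have b1 := ind_abs i1 i
            have b2 := ind_abs i2 i
            have b3 := ind_abs g1 i
            have b4 := ind_abs g2 i
            rw [abs_le] at b1 b2 b3 b4 ⊢
            rcases hσ with rfl | rfl <;> rcases ht1 with rfl | rfl <;>
              rcases ht2 with rfl | rfl <;> constructor <;> omega) (v2 - v1)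
          (by
            have b1 := hB v1 hv1
            have b2 := hB v2 hv2
            refine le_trans (abs_sub _ _) ?_
            omega)
          (by
            simp_rw [sub_mul, mul_assoc]
            rw [Finset.sum_sub_distrib, Finset.sum_sub_distrib, Finset.sum_sub_distrib,
              ← Finset.mul_sum, ← Finset.mul_sum, ← Finset.mul_sum, ← Finset.mul_sum,
              sum_ind u E i1 hi1, sum_ind u E i2 hi2, sum_ind u E g1 hg1, sum_ind u E g2 hg2]
            linarith) i hi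
        linarith
      have hE3 : ∀ j, j < 3 → 3 * a + j < E := by intro j hj; omega
      have H12 := hrel _ _ _ _ _ _ _ _ (hE3 0 (by norm_num)) (hE3 1 (by norm_num)) hf1 hf2
        hs1 hs2 hw1 hw2 e1 e2
      have H13 := hrel _ _ _ _ _ _ _ _ (hE3 0 (by norm_num)) (hE3 2 (by norm_num)) hf1 hf3
        hs1 hs3 hw1 hw3 e1 e3
      obtain ⟨hfe, hse⟩ := core σ hσ (3 * a + 0) (3 * a + 1) (3 * a + 2) (by omega) (by omega)
        (by omega) s1 s2 s3 hs1 hs2 f1 f2 f3 E (by omega) (by omega) (by omega) H12 H13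
      rw [hfe, hse] at e1
      have : x = w1 := by linarith
      exact hx (this ▸ hw1)
  · intro x hx
    have hx0 : x ≠ 0 := fun h' => h0 (h' ▸ hx)
    have hxY : |x| ≤ Y1 := le_trans (hB x hx) hY1B
    constructor
    · rcases residue n h hn x with ⟨y, hy⟩ | ⟨σ, hσ, a, ha, y, hy⟩
      · exfalso
        have hy0 : y ≠ 0 := by
          rintro rfl
          exact hx0 (by simpa using hy)
        have h1 : (n : ℤ) ≤ |x| := by
          rw [hy, abs_mul, abs_of_pos hn0]
          have := Int.one_le_abs hy0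
          nlinarith
        omega
      · obtain ⟨s, hs⟩ := (hu (3 * a) (by omega)).1
        have h3a : (3 * a) / 3 = a := by omega
        simp only [h3a] at hs
        have hz : x = n * (y - σ * s) + σ * u (3 * a) := by
          rw [hs, hy]; ring
        have hzW : (y - σ * s) ∈ W' := ⟨x, hx, 3 * a, by omega, σ, hσ, by linarith⟩
        rw [hz]
        exact comp2 hupos r _ (hAW _ hzW).1 _ (by omega) σ hσ
    · intro k hk hsum
      obtain ⟨t, ht1, htk, c, hc, hc1, y, hy0, hyY, hy, hxe⟩ :=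
        hana x hx0 hxY k (by omega) hsum
      by_cases hone : ∑ e ∈ Finset.range E, |c e| = 1
      · obtain ⟨e, he, σ, hσ, hs⟩ := single (u := u) hone
        have hyW : y ∈ W' := ⟨x, hx, e, he, σ, hσ, by rw [hs] at hxe; linarith⟩
        exact (hAW y hyW).2 (k - t) (by omega) hy
      · exact hAV y hy0 hyY (k - t) (by omega) hy
  · intro x hx0 hxY k hk hsum
    obtain ⟨t, ht1, htk, c, hc, hc1, y, hy0, hyY, hy, hxe⟩ :=
      hana x hx0 (le_trans hxY hY1Y) k (by omega) hsum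
    exact hAV y hy0 hyY (k - t) (by omega) hy

lemma good_all (r : ℕ) (hr : 2 ≤ r) : Good r := by
  induction r, hr using Nat.le_induction with
  | base => exact good_two
  | succ r hr ih => exact step r hr ih

lemma exists_linear (r : ℕ) (hr : 2 ≤ r) (W : Finset ℕ) (hpos : ∀ w ∈ W, 0 < w) :
    ∃ A ∈ Fam r W, Grows A 1 := by
  set W1 : Set ℤ := {x | ∃ w ∈ W, x = (w : ℤ) ∨ x = -(w : ℤ)} with hW1
  have hfin : W1.Finite := by
    apply Set.Finite.subset
      ((W.image (fun w : ℕ => (w : ℤ))) ∪ (W.image (fun w : ℕ => -(w : ℤ)))).finite_toSet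
    rintro x ⟨w, hw, h | h⟩
    · rw [Finset.coe_union]
      left
      exact Finset.mem_coe.mpr (Finset.mem_image.mpr ⟨w, hw, h.symm⟩)
    · rw [Finset.coe_union]
      right
      exact Finset.mem_coe.mpr (Finset.mem_image.mpr ⟨w, hw, h.symm⟩)
  have h0 : (0 : ℤ) ∉ W1 := by
    rintro ⟨w, hw, h | h⟩ <;> have := hpos w hw <;> omega
  have hsym : ∀ x ∈ W1, -x ∈ W1 := by
    rintro x ⟨w, hw, h | h⟩
    · exact ⟨w, hw, Or.inr (by rw [h])⟩
    · exact ⟨w, hw, Or.inl (by rw [h, neg_neg])⟩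
  obtain ⟨A, hA0, ⟨m, k0, hm, hmk⟩, hAsmall, hAW, _⟩ := good_all r hr W1 hfin h0 hsym 0
  refine ⟨A, ⟨hA0, ?_, ?_⟩, ?_⟩
  · intro x
    by_cases hx : x ∈ W1
    · exact ⟨r, (hAW x hx).1⟩
    · obtain ⟨k, _, hk⟩ := hAsmall x hx
      exact ⟨k, hk⟩
  · intro x
    constructor
    · intro hx
      by_contra hcon
      obtain ⟨k, hk, hsum⟩ := hAsmall x hcon
      exact hx.2 k hk hsum
    · intro hx
      exact hAW x hx
  · have hmr : (0 : ℝ) < m := by exact_mod_cast hm
    refine ⟨1 / (2 * m), by positivity, 2 * m * (k0 + 1), ?_⟩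
    intro t ht
    have hk0 : (0 : ℝ) ≤ k0 := by positivity
    have ht0 : 0 ≤ t := le_trans (by positivity) ht
    have hfinA : {a : ℕ | a ∈ A ∧ (a : ℝ) ≤ t}.Finite := by
      apply Set.Finite.subset (Set.finite_Iic ⌊t⌋₊)
      rintro a ⟨_, ha⟩
      exact Nat.le_floor ha
    have hsub : (fun k => m * k) '' (Set.Icc k0 ⌊t / m⌋₊) ⊆ {a : ℕ | a ∈ A ∧ (a : ℝ) ≤ t} := by
      rintro _ ⟨k, hk, rfl⟩
      refine ⟨hmk k hk.1, ?_⟩
      have h1 : (k : ℝ) ≤ t / m := by
        have h2 : (k : ℝ) ≤ (⌊t / m⌋₊ : ℝ) := by exact_mod_cast hk.2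
        exact le_trans h2 (Nat.floor_le (by positivity))
      rw [le_div_iff₀ hmr] at h1
      push_cast
      linarith
    have hcard := Set.ncard_le_ncard hsub hfinA
    rw [Set.ncard_image_of_injective _ (fun a b hab => Nat.eq_of_mul_eq_mul_left hm hab)] at hcard
    have hIcc : (Set.Icc k0 ⌊t / m⌋₊).ncard = ⌊t / m⌋₊ + 1 - k0 := by
      rw [← Finset.coe_Icc, Set.ncard_coe_finset, Nat.card_Icc]
    rw [hIcc] at hcard
    have h3 : t / m < ⌊t / m⌋₊ + 1 := Nat.lt_floor_add_one _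
    have h4 : ((⌊t / m⌋₊ + 1 - k0 : ℕ) : ℝ) ≤ ({a : ℕ | a ∈ A ∧ (a : ℝ) ≤ t}.ncard : ℝ) := by
      exact_mod_cast hcard
    have h5 : (⌊t / m⌋₊ : ℝ) + 1 - k0 ≤ ((⌊t / m⌋₊ + 1 - k0 : ℕ) : ℝ) := by
      have : ⌊t / m⌋₊ + 1 ≤ (⌊t / m⌋₊ + 1 - k0) + k0 := by omega
      have h6 : ((⌊t / m⌋₊ : ℝ) + 1) ≤ ((⌊t / m⌋₊ + 1 - k0 : ℕ) : ℝ) + k0 := by exact_mod_cast this
      linarith
    rw [Real.rpow_one]
    have h7 : t / m - k0 ≤ ({a : ℕ | a ∈ A ∧ (a : ℝ) ≤ t}.ncard : ℝ) := by linarith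
    refine le_trans ?_ h7
    have h8 : 1 / (2 * (m : ℝ)) * t = t / m / 2 := by field_simp
    have h9 : 2 * ((k0 : ℝ) + 1) ≤ t / m := by
      rw [le_div_iff₀ hmr]; linarith
    rw [h8]
    linarith

lemma not_grows (A : Set ℕ) (hA0 : 0 ∉ A) (θ : ℝ) (hθ : 1 < θ) : ¬ Grows A θ := by
  rintro ⟨c, hc, T, h⟩
  have ht : Tendsto (fun t : ℝ => t ^ (θ - 1)) atTop atTop :=
    tendsto_rpow_atTop (by linarith)
  obtain ⟨t, ht1, ht2, ht3⟩ : ∃ t : ℝ, T ≤ t ∧ 1 ≤ t ∧ 1 / c < t ^ (θ - 1) := by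
    have h1 := (ht.eventually_gt_atTop (1 / c)).and
      ((eventually_ge_atTop T).and (eventually_ge_atTop 1))
    obtain ⟨t, h2, h3, h4⟩ := h1.exists
    exact ⟨t, h3, h4, h2⟩
  have h1 := h t ht1
  have h2 : ({a : ℕ | a ∈ A ∧ (a : ℝ) ≤ t}.ncard : ℝ) ≤ t := by
    have h3 : {a : ℕ | a ∈ A ∧ (a : ℝ) ≤ t} ⊆ (Finset.Icc 1 ⌊t⌋₊ : Finset ℕ) := by
      rintro a ⟨ha, hat⟩
      rw [Finset.mem_coe, Finset.mem_Icc]
      refine ⟨?_, Nat.le_floor hat⟩
      rcases Nat.eq_zero_or_pos a with h | h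
      · exact absurd (h ▸ ha) hA0
      · exact h
    have h4 := Set.ncard_le_ncard h3 (Finset.finite_toSet _)
    rw [Set.ncard_coe_finset, Nat.card_Icc, Nat.add_sub_cancel] at h4
    have h5 : ({a : ℕ | a ∈ A ∧ (a : ℝ) ≤ t}.ncard : ℝ) ≤ (⌊t⌋₊ : ℝ) := by exact_mod_cast h4
    exact le_trans h5 (Nat.floor_le (by linarith))
  have ht0 : 0 < t := by linarith
  have h6 : t ^ θ = t ^ (θ - 1) * t := by
    have := Real.rpow_add ht0 (θ - 1) 1
    rw [Real.rpow_one] at this
    rw [← this]; congr 1; ring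
  rw [h6] at h1
  have h7 : 1 < c * t ^ (θ - 1) := by
    rw [div_lt_iff₀ hc] at ht3
    linarith
  nlinarith

theorem result (r : ℕ) (hr : 2 ≤ r) (W : Finset ℕ) (hpos : ∀ w ∈ W, 0 < w) :
    theta r W = 1 ∧ (∃ A ∈ Fam r W, Grows A 1) ∧
      ∀ A ∈ Fam r W, ∀ t : ℝ, 0 ≤ t → ({a : ℕ | a ∈ A ∧ (a : ℝ) ≤ t}.ncard : ℝ) ≤ t := by
  have hlin := exists_linear r hr W hpos
  refine ⟨?_, hlin, ?_⟩
  · unfold theta
    apply le_antisymm
    · apply Real.sSup_le _ zero_le_one
      rintro θ ⟨_, A, hA, hg⟩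
      by_contra hcon
      push Not at hcon
      exact not_grows A hA.1 θ hcon hg
    · apply le_csSup
      · refine ⟨1, ?_⟩
        rintro θ ⟨_, A, hA, hg⟩
        by_contra hcon
        push Not at hcon
        exact not_grows A hA.1 θ hcon hg
      · exact ⟨one_pos, hlin⟩
  · intro A hA t ht0
    have h3 : {a : ℕ | a ∈ A ∧ (a : ℝ) ≤ t} ⊆ (Finset.Icc 1 ⌊t⌋₊ : Finset ℕ) := by
      rintro a ⟨ha, hat⟩
      rw [Finset.mem_coe, Finset.mem_Icc]
      refine ⟨?_, Nat.le_floor hat⟩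
      rcases Nat.eq_zero_or_pos a with h | h
      · exact absurd (h ▸ ha) hA.1
      · exact h
    have h4 := Set.ncard_le_ncard h3 (Finset.finite_toSet _)
    rw [Set.ncard_coe_finset, Nat.card_Icc, Nat.add_sub_cancel] at h4
    have h5 : ({a : ℕ | a ∈ A ∧ (a : ℝ) ≤ t}.ncard : ℝ) ≤ (⌊t⌋₊ : ℝ) := by exact_mod_cast h4
    exact le_trans h5 (Nat.floor_le ht0)

end Pool.Agent.Results.MP_7aef23_nt.LinearGrowth
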